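import Mathlib

/-!
# A non-discrete Pauli set of functions with bounded support

Disproof of MP_d886ff_an, Q1.  Let `d_j(x)` be the base three digits of `x ∈ [0,1)` and put
`f_ε(x) = exp(i ∑ ε_j 2^{-j} 1[d_j(x) = 1])` on `[0,1)`, `0` elsewhere (`ε_j = ± 1`).  Flipping one sign
does not change `|f_ε|` nor the modulus of its Fourier transform, and flipping the `k`-th sign changes
`f_ε` by `O(2^{-k})` in `L²`.
-/

open MeasureTheory Filter Topology FourierTransform Complex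
open scoped ENNReal InnerProductSpace SchwartzMap ContDiff

noncomputable section

namespace Pool.Agent.Results.MP_d886ff_an.NonDiscretePauliSet

/-- The Fourier transform `f̂(x) = ∫ e^{-ixy} f(y) dy` on `L²(ℝ)`: Mathlib's Fourier transform on `L²`
is the Plancherel extension of `∫ e^{-2πixy} f(y) dy`, hence it is evaluated at `x / (2π)`. -/
def ft (f : Lp ℂ 2 (volume : Measure ℝ)) : ℝ → ℂ :=
  fun x => (𝓕 f : Lp ℂ 2 (volume : Measure ℝ)) (x / (2 * Real.pi))

/-- Pauli pairs: linearly independent elements of `L²(ℝ)` with `|f| = |g|` and `|f̂| = |ĝ|` a.e. -/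
def IsPauliPair (f g : Lp ℂ 2 (volume : Measure ℝ)) : Prop :=
  LinearIndependent ℂ ![f, g] ∧ (∀ᵐ x, ‖f x‖ = ‖g x‖) ∧ (∀ᵐ x, ‖ft f x‖ = ‖ft g x‖)

/-- Pauli sets: at least two elements, any two distinct elements form a Pauli pair. -/
def IsPauliSet (P : Set (Lp ℂ 2 (volume : Measure ℝ))) : Prop :=
  P.Nontrivial ∧ ∀ f ∈ P, ∀ g ∈ P, f ≠ g → IsPauliPair f g

/-- `f` vanishes a.e. outside a bounded interval. -/
def HasBoundedSupport (f : Lp ℂ 2 (volume : Measure ℝ)) : Prop :=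
  ∃ a b : ℝ, ∀ᵐ x, x ∉ Set.Icc a b → f x = 0

/-- `P` is discrete: each point of `P` is isolated in `P` for the `L²` norm. -/
def IsDiscreteSet (P : Set (Lp ℂ 2 (volume : Measure ℝ))) : Prop :=
  ∀ f ∈ P, ∃ ε : ℝ, 0 < ε ∧ ∀ g ∈ P \ {f}, ε ≤ ‖f - g‖

/-! ### Fourier transforms of `L¹ ∩ L²` functions -/

lemma fourier_toLp_ae (h : ℝ → ℂ) (h1 : Integrable h) (h2 : MemLp h 2) :
    (𝓕 (h2.toLp h : Lp (α := ℝ) ℂ 2) : Lp (α := ℝ) ℂ 2) =ᵐ[volume] 𝓕 h := by
  apply ae_eq_of_integral_contDiff_smul_eq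
  · exact (Lp.memLp _).locallyIntegrable (by norm_num)
  · apply Continuous.locallyIntegrable
    exact VectorFourier.fourierIntegral_continuous Real.continuous_fourierChar
      (innerSL ℝ).continuous₂ h1
  · intro g g_smooth g_cpt
    have hg₁ : HasCompactSupport (Complex.ofRealCLM ∘ g) := g_cpt.comp_left rfl
    have hg₂ : ContDiff ℝ ∞ (Complex.ofRealCLM ∘ g) := by fun_prop
    set G : 𝓢(ℝ, ℂ) := hg₁.toSchwartzMap hg₂ with hG
    have e1 : ∫ x, g x • (𝓕 (h2.toLp h : Lp (α := ℝ) ℂ 2) : Lp (α := ℝ) ℂ 2) x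
        = (Lp.toTemperedDistribution (𝓕 (h2.toLp h : Lp (α := ℝ) ℂ 2) : Lp (α := ℝ) ℂ 2)) G := by
      rw [Lp.toTemperedDistribution_apply]
      simp [hG]
    rw [e1, ← Lp.fourier_toTemperedDistribution_eq, TemperedDistribution.fourier_apply,
      Lp.toTemperedDistribution_apply]
    have e2 : ∫ x, (𝓕 G) x • (h2.toLp h : Lp (α := ℝ) ℂ 2) x = ∫ x, (𝓕 (G : ℝ → ℂ)) x • h x := by
      apply integral_congr_ae
      filter_upwards [h2.coeFn_toLp] with x hx
      rw [hx]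
      rfl
    rw [e2]
    have e3 : ∫ x, (𝓕 (G : ℝ → ℂ)) x • h x = ∫ x, (G x) • (𝓕 h) x := by
      simpa using! (VectorFourier.integral_fourierIntegral_smul_eq_flip (L := innerₗ ℝ)
        Real.continuous_fourierChar continuous_inner G.integrable h1)
    rw [e3]
    apply integral_congr_ae
    filter_upwards with x
    simp [hG]

/-! ### Base three digits -/

/-- The `(k+1)`-st base three digit of `x ≥ 0` after the point. -/
def dig (k : ℕ) (x : ℝ) : ℕ := ⌊(3 : ℝ) ^ (k + 1) * x⌋₊ % 3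

lemma measurable_dig (k : ℕ) : Measurable (dig k) := by
  unfold dig
  exact (measurable_from_top (f := fun n : ℕ => n % 3)).comp
    (Nat.measurable_floor.comp (measurable_const.mul measurable_id))

/-- Adding `d` at an empty digit position changes only this digit. -/
lemma dig_add {k : ℕ} {x : ℝ} (hx : 0 ≤ x) (h0 : dig k x = 0) {d : ℕ} (hd : d < 3) (j : ℕ) :
    dig j (x + d * (1 / 3) ^ (k + 1)) = if j = k then d else dig j x := by
  have hfl : ⌊(3 : ℝ) ^ (k + 1) * (x + d * (1 / 3) ^ (k + 1))⌋₊ = ⌊(3 : ℝ) ^ (k + 1) * x⌋₊ + d := by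
    have : (3 : ℝ) ^ (k + 1) * (x + d * (1 / 3) ^ (k + 1)) = (3 : ℝ) ^ (k + 1) * x + (d : ℕ) := by
      rw [mul_add, mul_comm (d : ℝ), ← mul_assoc, ← mul_pow]
      norm_num
    rw [this, Nat.floor_add_natCast (by positivity)]
  unfold dig at h0 ⊢
  split_ifs with hjk
  · subst hjk
    rw [hfl]
    omega
  · rcases lt_or_gt_of_ne hjk with h | h
    · -- `j < k`
      obtain ⟨m, rfl⟩ : ∃ m, k = j + 1 + m := ⟨k - (j + 1), by omega⟩
      have hdiv : ∀ y : ℝ, ⌊(3 : ℝ) ^ (j + 1) * y⌋₊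
          = ⌊(3 : ℝ) ^ (j + 1 + m + 1) * y⌋₊ / 3 ^ (m + 1) := by
        intro y
        rw [← Nat.floor_div_natCast]
        congr 1
        rw [show j + 1 + m + 1 = (j + 1) + (m + 1) by ring, pow_add (3 : ℝ) (j + 1) (m + 1)]
        push_cast
        have : (3 : ℝ) ^ (m + 1) ≠ 0 := by positivity
        field_simp
      rw [hdiv, hdiv x, hfl]
      generalize ⌊(3 : ℝ) ^ (j + 1 + m + 1) * x⌋₊ = N at h0 ⊢
      rw [show (3 : ℕ) ^ (m + 1) = 3 * 3 ^ m from pow_succ' 3 m, ← Nat.div_div_eq_div_mul,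
        ← Nat.div_div_eq_div_mul]
      congr 2
      omega
    · -- `k < j`
      obtain ⟨m, rfl⟩ : ∃ m, j = k + 1 + m := ⟨j - (k + 1), by omega⟩
      have : (3 : ℝ) ^ (k + 1 + m + 1) * (x + d * (1 / 3) ^ (k + 1))
          = (3 : ℝ) ^ (k + 1 + m + 1) * x + ((d * 3 ^ (m + 1) : ℕ) : ℝ) := by
        rw [mul_add, show k + 1 + m + 1 = (k + 1) + (m + 1) by ring, pow_add (3 : ℝ) (k + 1) (m + 1)]
        push_cast
        have h3 : (3 : ℝ) ^ (k + 1) * (1 / 3) ^ (k + 1) = 1 := by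
          rw [← mul_pow]; norm_num
        linear_combination ((3 : ℝ) ^ (m + 1) * d) * h3
      rw [this, Nat.floor_add_natCast (by positivity)]
      generalize ⌊(3 : ℝ) ^ (k + 1 + m + 1) * x⌋₊ = N
      rw [show d * (3 : ℕ) ^ (m + 1) = 3 * (d * 3 ^ m) by ring]
      omega

/-- An empty digit position leaves room. -/
lemma add_mem {k : ℕ} {x : ℝ} (hx : x ∈ Set.Ico (0 : ℝ) 1) (h0 : dig k x = 0) {d : ℕ} (hd : d < 3) :
    x + d * (1 / 3) ^ (k + 1) ∈ Set.Ico (0 : ℝ) 1 := by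
  obtain ⟨hx0, hx1⟩ := hx
  refine ⟨by positivity, ?_⟩
  unfold dig at h0
  set N := ⌊(3 : ℝ) ^ (k + 1) * x⌋₊ with hN
  have h1 : (N : ℝ) ≤ 3 ^ (k + 1) * x := Nat.floor_le (by positivity)
  have h2 : 3 ^ (k + 1) * x < (N : ℝ) + 1 := Nat.lt_floor_add_one _
  have h3 : (N : ℝ) < 3 ^ (k + 1) := by
    have : (3 : ℝ) ^ (k + 1) * x < 3 ^ (k + 1) * 1 := by
      apply mul_lt_mul_of_pos_left hx1 (by positivity)
    linarith
  have h4 : N < 3 ^ (k + 1) := by exact_mod_cast h3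
  have h5 : N + 3 ≤ 3 ^ (k + 1) := by
    rw [pow_succ] at h4 ⊢
    omega
  have h6 : (N : ℝ) + 3 ≤ 3 ^ (k + 1) := by exact_mod_cast h5
  have h7 : (d : ℝ) ≤ 2 := by
    have : d ≤ 2 := by omega
    exact_mod_cast this
  have h8 : (3 : ℝ) ^ (k + 1) * (x + d * (1 / 3) ^ (k + 1)) < 3 ^ (k + 1) * 1 := by
    have : (3 : ℝ) ^ (k + 1) * (x + d * (1 / 3) ^ (k + 1)) = (3 : ℝ) ^ (k + 1) * x + d := by
      rw [mul_add, mul_comm (d : ℝ), ← mul_assoc, ← mul_pow]
      norm_num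
    rw [this]
    linarith
  exact lt_of_mul_lt_mul_left h8 (by positivity)

/-- Removing the digit. -/
lemma sub_mem {k : ℕ} {y : ℝ} (hy : y ∈ Set.Ico (0 : ℝ) 1) :
    y - dig k y * (1 / 3) ^ (k + 1) ∈ Set.Ico (0 : ℝ) 1 ∧
      dig k (y - dig k y * (1 / 3) ^ (k + 1)) = 0 := by
  obtain ⟨hy0, hy1⟩ := hy
  set N := ⌊(3 : ℝ) ^ (k + 1) * y⌋₊ with hN
  have hdN : dig k y = N % 3 := rfl
  have h1 : (N : ℝ) ≤ 3 ^ (k + 1) * y := Nat.floor_le (by positivity)
  have hle : dig k y ≤ N := by rw [hdN]; exact Nat.mod_le _ _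
  have hle' : (dig k y : ℝ) ≤ N := by exact_mod_cast hle
  have h3 : (3 : ℝ) ^ (k + 1) * (1 / 3) ^ (k + 1) = 1 := by
    rw [← mul_pow]; norm_num
  have heq : (3 : ℝ) ^ (k + 1) * (y - dig k y * (1 / 3) ^ (k + 1))
      = (3 : ℝ) ^ (k + 1) * y - (dig k y : ℕ) := by
    linear_combination (-(dig k y : ℝ)) * h3
  refine ⟨⟨?_, ?_⟩, ?_⟩
  · have : 0 ≤ (3 : ℝ) ^ (k + 1) * (y - dig k y * (1 / 3) ^ (k + 1)) := by
      rw [heq]; linarith
    exact nonneg_of_mul_nonneg_right this (by positivity)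
  · have : 0 ≤ (dig k y : ℝ) * (1 / 3) ^ (k + 1) := by positivity
    linarith
  · unfold dig
    rw [show ((⌊(3 : ℝ) ^ (k + 1) * y⌋₊ % 3 : ℕ) : ℝ) = (dig k y : ℕ) from rfl, heq,
      Nat.floor_sub_natCast, ← hN, hdN]
    omega

/-! ### The functions -/

/-- The phase `∑_j s_j 2^{-j} 1[d_j(x) = 1]`. -/
def tm (s : ℕ → ℝ) (x : ℝ) (j : ℕ) : ℝ := if dig j x = 1 then s j * (1 / 2) ^ j else 0

lemma tm_bound {s : ℕ → ℝ} (hs : ∀ j, |s j| ≤ 1) (x : ℝ) (j : ℕ) : |tm s x j| ≤ (1 / 2) ^ j := by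
  unfold tm
  split_ifs
  · rw [abs_mul, abs_of_pos (show (0 : ℝ) < (1 / 2) ^ j by positivity)]
    exact mul_le_of_le_one_left (by positivity) (hs j)
  · simp

lemma tm_summable {s : ℕ → ℝ} (hs : ∀ j, |s j| ≤ 1) (x : ℝ) : Summable (tm s x) :=
  Summable.of_norm_bounded summable_geometric_two (fun j => by
    rw [Real.norm_eq_abs]; exact tm_bound hs x j)

/-- The phase function. -/
def ph (s : ℕ → ℝ) (x : ℝ) : ℝ := ∑' j, tm s x j

lemma measurable_tm (s : ℕ → ℝ) (j : ℕ) : Measurable (fun x => tm s x j) := by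
  unfold tm
  exact Measurable.ite (measurable_dig j (measurableSet_singleton 1)) measurable_const
    measurable_const

lemma measurable_ph {s : ℕ → ℝ} (hs : ∀ j, |s j| ≤ 1) : Measurable (ph s) := by
  apply measurable_of_tendsto_metrizable (f := fun n x => ∑ j ∈ Finset.range n, tm s x j)
  · intro n
    exact Finset.measurable_sum _ (fun j _ => measurable_tm s j)
  · rw [tendsto_pi_nhds]
    intro x
    exact (tm_summable hs x).hasSum.tendsto_sum_nat

/-- The function `f_s`. -/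
def fn (s : ℕ → ℝ) (x : ℝ) : ℂ := if x ∈ Set.Ico (0 : ℝ) 1 then exp (ph s x * I) else 0

lemma measurable_fn {s : ℕ → ℝ} (hs : ∀ j, |s j| ≤ 1) : Measurable (fn s) := by
  unfold fn
  refine Measurable.ite measurableSet_Ico ?_ measurable_const
  exact Complex.measurable_exp.comp
    ((Complex.measurable_ofReal.comp (measurable_ph hs)).mul_const _)

lemma norm_fn (s : ℕ → ℝ) (x : ℝ) : ‖fn s x‖ = Set.indicator (Set.Ico (0 : ℝ) 1) 1 x := by
  unfold fn
  by_cases h : x ∈ Set.Ico (0 : ℝ) 1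
  · rw [if_pos h, Set.indicator_of_mem h, Complex.norm_exp_ofReal_mul_I]; rfl
  · rw [if_neg h, Set.indicator_of_notMem h, norm_zero]

lemma memLp_fn {s : ℕ → ℝ} (hs : ∀ j, |s j| ≤ 1) (p : ℝ≥0∞) : MemLp (fn s) p := by
  have h : MemLp (Set.indicator (Set.Ico (0 : ℝ) 1) (fun _ => (1 : ℝ))) p volume :=
    memLp_indicator_const p measurableSet_Ico 1 (Or.inr (by simp))
  refine h.mono (measurable_fn hs).aestronglyMeasurable ?_
  filter_upwards with x
  rw [norm_fn]
  exact le_abs_self _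

/-- The part of `fn s` where the `k`-th digit vanishes. -/
def part (k : ℕ) (s : ℕ → ℝ) (x : ℝ) : ℂ := if dig k x = 0 then fn s x else 0

lemma part_congr {k : ℕ} {s t : ℕ → ℝ} (hst : ∀ j, j ≠ k → s j = t j) : part k s = part k t := by
  funext x
  unfold part
  split_ifs with h
  · unfold fn
    split_ifs with hx
    · congr 3
      unfold ph
      congr 1
      funext j
      unfold tm
      by_cases hj : j = k
      · subst hj
        rw [h]; simp
      · rw [hst j hj]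
    · rfl
  · rfl

lemma part_integrable {k : ℕ} {s : ℕ → ℝ} (hs : ∀ j, |s j| ≤ 1) : Integrable (part k s) := by
  have h1 : Integrable (fn s) := memLp_one_iff_integrable.mp (memLp_fn hs 1)
  refine h1.mono (Measurable.aestronglyMeasurable ?_) ?_
  · exact Measurable.ite (measurable_dig k (measurableSet_singleton 0)) (measurable_fn hs)
      measurable_const
  · filter_upwards with x
    unfold part
    split_ifs
    · exact le_refl _
    · simp

lemma ph_add {k : ℕ} {s : ℕ → ℝ} (hs : ∀ j, |s j| ≤ 1) {x : ℝ} (hx : 0 ≤ x) (h0 : dig k x = 0)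
    {d : ℕ} (hd : d < 3) :
    ph s (x + d * (1 / 3) ^ (k + 1)) = ph s x + if d = 1 then s k * (1 / 2) ^ k else 0 := by
  unfold ph
  have h1 : ∀ j, tm s (x + d * (1 / 3) ^ (k + 1)) j
      = tm s x j + if j = k then (if d = 1 then s k * (1 / 2) ^ k else 0) else 0 := by
    intro j
    unfold tm
    rw [dig_add hx h0 hd j]
    by_cases hj : j = k
    · subst hj
      rw [if_pos rfl, if_pos rfl, h0]
      simp
    · rw [if_neg hj, if_neg hj, add_zero]
  simp_rw [h1]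
  rw [(tm_summable hs x).tsum_add]
  · rw [tsum_ite_eq]
  · exact (hasSum_ite_eq k _).summable

/-- The three term decomposition. -/
lemma fn_decomp {k : ℕ} {s : ℕ → ℝ} (hs : ∀ j, |s j| ≤ 1) (y : ℝ) :
    fn s y = part k s y + exp ((s k * (1 / 2) ^ k : ℝ) * I) * part k s (y - (1 / 3) ^ (k + 1))
      + part k s (y - 2 * (1 / 3) ^ (k + 1)) := by
  -- value of a translate of the part
  have key : ∀ d : ℕ, d < 3 → ∀ x : ℝ, dig k x = 0 → x ∈ Set.Ico (0 : ℝ) 1 →
      fn s (x + d * (1 / 3) ^ (k + 1))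
        = (if d = 1 then exp ((s k * (1 / 2) ^ k : ℝ) * I) else 1) * part k s x := by
    intro d hd x h0 hx
    unfold part fn
    rw [if_pos h0, if_pos hx, if_pos (add_mem hx h0 hd), ph_add hs hx.1 h0 hd]
    split_ifs
    · rw [← Complex.exp_add]; congr 1; push_cast; ring
    · rw [add_zero, one_mul]
  have hz : ∀ d : ℕ, d < 3 → (y ∉ Set.Ico (0 : ℝ) 1 ∨ dig k y ≠ d) →
      part k s (y - d * (1 / 3) ^ (k + 1)) = 0 := by
    intro d hd h
    by_contra hne
    have h0 : dig k (y - d * (1 / 3) ^ (k + 1)) = 0 := by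
      by_contra h0
      exact hne (by unfold part; rw [if_neg h0])
    have hx : y - d * (1 / 3) ^ (k + 1) ∈ Set.Ico (0 : ℝ) 1 := by
      by_contra hx
      exact hne (by unfold part fn; rw [if_pos h0, if_neg hx])
    have h1 := add_mem hx h0 hd
    have h2 := dig_add hx.1 h0 hd k
    rw [if_pos rfl] at h2
    rw [sub_add_cancel] at h1 h2
    rcases h with h | h
    · exact h h1
    · exact h h2
  have hz0 := hz 0 (by norm_num)
  have hz1 := hz 1 (by norm_num)
  have hz2 := hz 2 (by norm_num)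
  simp only [Nat.cast_zero, zero_mul, sub_zero, Nat.cast_one, one_mul, Nat.cast_ofNat]
    at hz0 hz1 hz2
  by_cases hy : y ∈ Set.Ico (0 : ℝ) 1
  · obtain ⟨hm, hd0⟩ := sub_mem (k := k) hy
    have hlt : dig k y < 3 := Nat.mod_lt _ (by norm_num)
    have hk := key (dig k y) hlt _ hd0 hm
    rw [sub_add_cancel] at hk
    generalize dig k y = d at *
    interval_cases d
    · rw [hz1 (Or.inr (by norm_num)), hz2 (Or.inr (by norm_num)), hk]
      simp
    · rw [hz0 (Or.inr (by norm_num)), hz2 (Or.inr (by norm_num)), hk]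
      simp
    · rw [hz0 (Or.inr (by norm_num)), hz1 (Or.inr (by norm_num)), hk]
      simp
  · rw [hz0 (Or.inl hy), hz1 (Or.inl hy), hz2 (Or.inl hy)]
    unfold fn
    rw [if_neg hy]
    simp

/-! ### Fourier transforms of the functions -/

lemma fourier_eqI (h : ℝ → ℂ) (ξ : ℝ) :
    𝓕 h ξ = ∫ v, exp ((-2 * Real.pi * v * ξ : ℝ) * I) * h v := by
  rw [Real.fourier_real_eq_integral_exp_smul]
  simp only [smul_eq_mul]

lemma fourier_shift (h : ℝ → ℂ) (a ξ : ℝ) :
    ∫ v, exp ((-2 * Real.pi * v * ξ : ℝ) * I) * h (v - a)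
      = exp ((-2 * Real.pi * a * ξ : ℝ) * I) * 𝓕 h ξ := by
  rw [fourier_eqI, ← integral_const_mul, ← integral_sub_right_eq_self
    (fun v => exp ((-2 * Real.pi * a * ξ : ℝ) * I) * (exp ((-2 * Real.pi * v * ξ : ℝ) * I) * h v)) a]
  congr 1
  funext y
  rw [← mul_assoc, ← Complex.exp_add]
  congr 2
  push_cast
  ring

lemma integrable_exp_mul {h : ℝ → ℂ} (hh : Integrable h) (ξ : ℝ) :
    Integrable (fun v => exp ((-2 * Real.pi * v * ξ : ℝ) * I) * h v) := by
  refine hh.bdd_mul (c := 1) (Continuous.aestronglyMeasurable (by fun_prop)) ?_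
  filter_upwards with v
  rw [Complex.norm_exp_ofReal_mul_I]

lemma fourier_fn {k : ℕ} {s : ℕ → ℝ} (hs : ∀ j, |s j| ≤ 1) (ξ : ℝ) :
    𝓕 (fn s) ξ = 𝓕 (part k s) ξ * (1 + exp ((s k * (1 / 2) ^ k : ℝ) * I)
        * exp ((-2 * Real.pi * (1 / 3) ^ (k + 1) * ξ : ℝ) * I)
      + exp ((-2 * Real.pi * (1 / 3) ^ (k + 1) * ξ : ℝ) * I) ^ 2) := by
  have hp := part_integrable (k := k) hs
  have h0 : ∀ v, exp ((-2 * Real.pi * v * ξ : ℝ) * I) * fn s v
      = exp ((-2 * Real.pi * v * ξ : ℝ) * I) * part k s v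
        + exp ((s k * (1 / 2) ^ k : ℝ) * I)
          * (exp ((-2 * Real.pi * v * ξ : ℝ) * I) * part k s (v - (1 / 3) ^ (k + 1)))
        + exp ((-2 * Real.pi * v * ξ : ℝ) * I) * part k s (v - 2 * (1 / 3) ^ (k + 1)) := by
    intro v
    rw [fn_decomp (k := k) hs v]
    ring
  rw [fourier_eqI]
  simp_rw [h0]
  rw [integral_add, integral_add, integral_const_mul, fourier_shift, fourier_shift, ← fourier_eqI]
  · have : exp ((-2 * Real.pi * (2 * (1 / 3) ^ (k + 1)) * ξ : ℝ) * I)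
        = exp ((-2 * Real.pi * (1 / 3) ^ (k + 1) * ξ : ℝ) * I) ^ 2 := by
      rw [← Complex.exp_nat_mul]
      congr 1
      push_cast
      ring
    rw [this]
    ring
  · exact integrable_exp_mul hp ξ
  · exact (integrable_exp_mul (hp.comp_sub_right _) ξ).const_mul _
  · exact (integrable_exp_mul hp ξ).add ((integrable_exp_mul (hp.comp_sub_right _) ξ).const_mul _)
  · exact integrable_exp_mul (hp.comp_sub_right _) ξ

lemma norm_factor (σ τ : ℝ) :
    ‖1 + exp ((σ : ℝ) * I) * exp ((τ : ℝ) * I) + exp ((τ : ℝ) * I) ^ 2‖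
      = ‖1 + exp ((-σ : ℝ) * I) * exp ((τ : ℝ) * I) + exp ((τ : ℝ) * I) ^ 2‖ := by
  have h1 : 1 + exp ((-σ : ℝ) * I) * exp ((τ : ℝ) * I) + exp ((τ : ℝ) * I) ^ 2
      = exp ((τ : ℝ) * I) ^ 2 * (starRingEnd ℂ)
        (1 + exp ((σ : ℝ) * I) * exp ((τ : ℝ) * I) + exp ((τ : ℝ) * I) ^ 2) := by
    have hc : ∀ a : ℝ, (starRingEnd ℂ) (exp ((a : ℝ) * I)) = exp ((-a : ℝ) * I) := by
      intro a
      rw [← Complex.exp_conj]
      congr 1
      rw [map_mul, Complex.conj_I, Complex.conj_ofReal]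
      push_cast
      ring
    have h2 : exp ((τ : ℝ) * I) * exp ((-τ : ℝ) * I) = 1 := by
      rw [← Complex.exp_add]
      push_cast
      simp
    rw [map_add, map_add, map_mul, map_pow, map_one, hc, hc]
    generalize exp ((τ : ℝ) * I) = w at *
    generalize exp ((-τ : ℝ) * I) = w' at *
    generalize exp ((-σ : ℝ) * I) = u at *
    linear_combination (-(w * u) - 1 - w * w') * h2
  rw [h1, norm_mul, norm_pow, Complex.norm_exp_ofReal_mul_I, one_pow, one_mul, RCLike.norm_conj]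

lemma fourier_flip {k : ℕ} {s t : ℕ → ℝ} (hs : ∀ j, |s j| ≤ 1) (ht : ∀ j, |t j| ≤ 1)
    (hst : ∀ j, j ≠ k → s j = t j) (hk : t k = - s k) (ξ : ℝ) :
    ‖𝓕 (fn s) ξ‖ = ‖𝓕 (fn t) ξ‖ := by
  rw [fourier_fn (k := k) hs, fourier_fn (k := k) ht, part_congr hst, norm_mul, norm_mul, hk]
  congr 1
  have := norm_factor (s k * (1 / 2) ^ k) (-2 * Real.pi * (1 / 3) ^ (k + 1) * ξ)
  rw [this]
  congr 5
  push_cast
  ring

/-! ### The Pauli set -/

/-- `f_s` as an element of `L²`. -/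
def F (s : ℕ → ℝ) (hs : ∀ j, |s j| ≤ 1) : Lp ℂ 2 (volume : Measure ℝ) :=
  (memLp_fn hs 2).toLp (fn s)

lemma coe_F (s : ℕ → ℝ) (hs : ∀ j, |s j| ≤ 1) : F s hs =ᵐ[volume] fn s :=
  MemLp.coeFn_toLp _

lemma ft_F (s : ℕ → ℝ) (hs : ∀ j, |s j| ≤ 1) :
    ∀ᵐ x, ft (F s hs) x = 𝓕 (fn s) (x / (2 * Real.pi)) := by
  have h1 : Integrable (fn s) := memLp_one_iff_integrable.mp (memLp_fn hs 1)
  have h := fourier_toLp_ae (fn s) h1 (memLp_fn hs 2)
  have hq : Measure.QuasiMeasurePreserving (fun x : ℝ => x / (2 * Real.pi)) volume volume := by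
    have h2 : (fun x : ℝ => x / (2 * Real.pi)) = (fun x => (2 * Real.pi)⁻¹ • x) := by
      funext x; rw [smul_eq_mul]; ring
    rw [h2]
    refine ⟨measurable_const_smul _, ?_⟩
    rw [Measure.map_addHaar_smul _ (by positivity)]
    exact Measure.smul_absolutelyContinuous
  exact hq.ae h

/-- Linear independence when one sign differs. -/
lemma linIndep {s t : ℕ → ℝ} (hs : ∀ j, |s j| ≤ 1) (ht : ∀ j, |t j| ≤ 1) {k : ℕ}
    (hk : t k = - s k) (hk1 : |s k| = 1) : LinearIndependent ℂ ![F s hs, F t ht] := by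
  rw [LinearIndependent.pair_iff]
  intro a b hab
  have h1 : ∀ᵐ x, a * fn s x + b * fn t x = 0 := by
    have h2 : (a • F s hs + b • F t ht : Lp ℂ 2 (volume : Measure ℝ)) =ᵐ[volume] 0 := by
      rw [hab]; exact Lp.coeFn_zero _ _ _
    filter_upwards [h2, Lp.coeFn_add (a • F s hs) (b • F t ht), Lp.coeFn_smul a (F s hs),
      Lp.coeFn_smul b (F t ht), coe_F s hs, coe_F t ht] with x h2 h3 h4 h5 h6 h7
    rw [h2] at h3
    simp only [Pi.add_apply, h4, h5, Pi.smul_apply, h6, h7, Pi.zero_apply, smul_eq_mul] at h3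
    exact h3.symm
  have h2 : ∀ᵐ x, a * fn s (x + (1 / 3) ^ (k + 1)) + b * fn t (x + (1 / 3) ^ (k + 1)) = 0 :=
    (measurePreserving_add_right volume ((1 / 3 : ℝ) ^ (k + 1))).quasiMeasurePreserving.ae h1
  -- a common point in `(0, 3^{-(k+1)})`
  obtain ⟨x, ⟨hx0, hx1⟩, h3, h4⟩ : ∃ x ∈ Set.Ioo (0 : ℝ) ((1 / 3) ^ (k + 1)),
      a * fn s x + b * fn t x = 0 ∧
      a * fn s (x + (1 / 3) ^ (k + 1)) + b * fn t (x + (1 / 3) ^ (k + 1)) = 0 := by
    by_contra hcon
    push Not at hcon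
    have h5 : ∀ᵐ x : ℝ, x ∉ Set.Ioo (0 : ℝ) ((1 / 3) ^ (k + 1)) := by
      filter_upwards [h1, h2] with x hx1 hx2 hx
      exact hcon x hx hx1 hx2
    rw [ae_iff] at h5
    simp only [not_not, Set.ofPred_mem_eq] at h5
    rw [Real.volume_Ioo, sub_zero, ENNReal.ofReal_eq_zero] at h5
    have : (0 : ℝ) < (1 / 3) ^ (k + 1) := by positivity
    linarith
  have hd0 : dig k x = 0 := by
    unfold dig
    have : (3 : ℝ) ^ (k + 1) * x < 1 := by
      have h6 : (3 : ℝ) ^ (k + 1) * x < 3 ^ (k + 1) * (1 / 3) ^ (k + 1) :=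
        mul_lt_mul_of_pos_left hx1 (by positivity)
      rw [← mul_pow] at h6
      norm_num at h6
      exact h6
    rw [Nat.floor_eq_zero.mpr this]
  have hx2 : x ∈ Set.Ico (0 : ℝ) 1 :=
    ⟨hx0.le, lt_of_lt_of_le hx1 (pow_le_one₀ (by norm_num) (by norm_num))⟩
  have hval : ∀ u : ℕ → ℝ, (∀ j, |u j| ≤ 1) → fn u (x + (1 / 3) ^ (k + 1))
      = exp ((u k * (1 / 2) ^ k : ℝ) * I) * fn u x := by
    intro u hu
    have h6 := ph_add hu hx2.1 hd0 (d := 1) (by norm_num)
    have h7 := add_mem hx2 hd0 (d := 1) (by norm_num)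
    rw [Nat.cast_one, one_mul] at h6 h7
    rw [if_pos rfl] at h6
    unfold fn
    rw [if_pos hx2, if_pos h7, h6, ← Complex.exp_add]
    congr 1
    push_cast
    ring
  rw [hval s hs, hval t ht, hk] at h4
  have hne : ∀ u : ℕ → ℝ, fn u x ≠ 0 := by
    intro u
    unfold fn
    rw [if_pos hx2]
    exact Complex.exp_ne_zero _
  -- the two unimodular numbers are different
  have hdiff : exp ((s k * (1 / 2) ^ k : ℝ) * I) ≠ exp ((-s k * (1 / 2) ^ k : ℝ) * I) := by
    intro h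
    have h8 := congrArg Complex.im h
    rw [Complex.exp_ofReal_mul_I_im, Complex.exp_ofReal_mul_I_im, neg_mul, Real.sin_neg] at h8
    have h9 : Real.sin (s k * (1 / 2) ^ k) = 0 := by linarith
    have hpos : (0 : ℝ) < (1 / 2) ^ k := by positivity
    have hle : ((1 : ℝ) / 2) ^ k ≤ 1 := pow_le_one₀ (by norm_num) (by norm_num)
    have h10 : 0 < Real.sin ((1 / 2) ^ k) :=
      Real.sin_pos_of_pos_of_lt_pi hpos (by linarith [Real.pi_gt_three])
    rcases (abs_eq (by norm_num : (0 : ℝ) ≤ 1)).mp hk1 with h | h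
    · rw [h, one_mul] at h9; linarith
    · rw [h, neg_mul, one_mul, Real.sin_neg] at h9; linarith
  have h11 : a * fn s x * (exp ((s k * (1 / 2) ^ k : ℝ) * I)
      - exp ((-s k * (1 / 2) ^ k : ℝ) * I)) = 0 := by
    linear_combination h4 - exp ((-s k * (1 / 2) ^ k : ℝ) * I) * h3
  have ha : a = 0 := by
    rcases mul_eq_zero.mp h11 with h | h
    · exact (mul_eq_zero.mp h).resolve_right (hne s)
    · exact absurd (sub_eq_zero.mp h) hdiff
  refine ⟨ha, ?_⟩
  rw [ha, zero_mul, zero_add] at h3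
  exact (mul_eq_zero.mp h3).resolve_right (hne t)

/-- The sign sequences: `sg 0 = (1,1,…)`, and `sg (k+1)` has a single `-1` at position `k`. -/
def sg (m : ℕ) (j : ℕ) : ℝ := if j + 1 = m then -1 else 1

lemma abs_sg (m j : ℕ) : |sg m j| = 1 := by
  unfold sg; split_ifs <;> simp

lemma sg_le (m : ℕ) : ∀ j, |sg m j| ≤ 1 := fun j => (abs_sg m j).le

/-- The Pauli set. -/
def G (m : ℕ) : Lp ℂ 2 (volume : Measure ℝ) := F (sg m) (sg_le m)

lemma norm_fourier_G (m : ℕ) (ξ : ℝ) : ‖𝓕 (fn (sg m)) ξ‖ = ‖𝓕 (fn (sg 0)) ξ‖ := by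
  rcases m with _ | k
  · rfl
  · symm
    apply fourier_flip (k := k) (sg_le _) (sg_le _)
    · intro j hj
      unfold sg
      rw [if_neg (by omega), if_neg (by omega)]
    · unfold sg
      rw [if_pos rfl, if_neg (by omega)]

lemma linIndep_G {m n : ℕ} (h : m ≠ n) : LinearIndependent ℂ ![G m, G n] := by
  unfold G
  rcases m with _ | k
  · obtain ⟨l, rfl⟩ : ∃ l, n = l + 1 := ⟨n - 1, by omega⟩
    apply linIndep (k := l)
    · unfold sg; rw [if_pos rfl, if_neg (by omega)]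
    · exact abs_sg _ _
  · apply linIndep (k := k)
    · unfold sg; rw [if_pos rfl, if_neg (by omega)]; simp
    · exact abs_sg _ _

lemma G_injective : Function.Injective G := by
  intro m n h
  by_contra hne
  have := linIndep_G hne
  rw [h] at this
  have h2 := this.injective (a₁ := 0) (a₂ := 1) (by simp)
  exact absurd h2 (by norm_num)

lemma isPauliPair_G {m n : ℕ} (h : m ≠ n) : IsPauliPair (G m) (G n) := by
  refine ⟨linIndep_G h, ?_, ?_⟩
  · filter_upwards [coe_F (sg m) (sg_le m), coe_F (sg n) (sg_le n)] with x h1 h2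
    unfold G
    rw [h1, h2, norm_fn, norm_fn]
  · filter_upwards [ft_F (sg m) (sg_le m), ft_F (sg n) (sg_le n)] with x h1 h2
    unfold G
    rw [h1, h2, norm_fourier_G, norm_fourier_G n]

lemma norm_sub_le (k : ℕ) : ‖G 0 - G (k + 1)‖ ≤ 2 * (1 / 2) ^ k := by
  have hpt : ∀ x, ‖fn (sg 0) x - fn (sg (k + 1)) x‖
      ≤ ‖Set.indicator (Set.Ico (0 : ℝ) 1) (fun _ => (2 * (1 / 2) ^ k : ℝ)) x‖ := by
    intro x
    by_cases hx : x ∈ Set.Ico (0 : ℝ) 1
    · rw [Set.indicator_of_mem hx, Real.norm_of_nonneg (by positivity)]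
      unfold fn
      rw [if_pos hx, if_pos hx]
      have h1 : ph (sg 0) x - ph (sg (k + 1)) x = if dig k x = 1 then 2 * (1 / 2) ^ k else 0 := by
        unfold ph
        rw [← (tm_summable (sg_le 0) x).tsum_sub (tm_summable (sg_le (k + 1)) x)]
        rw [tsum_eq_single k]
        · unfold tm sg
          rw [if_pos rfl, if_neg (show ¬ (k + 1 = 0) by omega)]
          split_ifs
          · ring
          · ring
        · intro j hj
          unfold tm sg
          rw [if_neg (show ¬ (j + 1 = 0) by omega), if_neg (show ¬ (j + 1 = k + 1) by omega)]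
          simp
      have h2 : |ph (sg 0) x - ph (sg (k + 1)) x| ≤ 2 * (1 / 2) ^ k := by
        rw [h1]
        split_ifs
        · rw [abs_of_pos (by positivity)]
        · simp
      have h3 : exp (ph (sg 0) x * I) - exp (ph (sg (k + 1)) x * I)
          = exp (ph (sg (k + 1)) x * I)
            * (exp (I * ((ph (sg 0) x - ph (sg (k + 1)) x : ℝ) : ℂ)) - 1) := by
        rw [mul_sub, ← Complex.exp_add, mul_one]
        congr 2
        push_cast
        ring
      rw [h3, norm_mul, Complex.norm_exp_ofReal_mul_I, one_mul]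
      exact (Real.norm_exp_I_mul_ofReal_sub_one_le).trans (by rw [Real.norm_eq_abs]; exact h2)
    · rw [Set.indicator_of_notMem hx]
      unfold fn
      rw [if_neg hx, if_neg hx]
      simp
  have h1 : eLpNorm (fun x => fn (sg 0) x - fn (sg (k + 1)) x) 2 volume
      ≤ ENNReal.ofReal (2 * (1 / 2) ^ k) := by
    refine (eLpNorm_mono hpt).trans ?_
    refine (eLpNorm_indicator_const_le _ _).trans ?_
    rw [Real.volume_Ico]
    simp only [sub_zero, ENNReal.ofReal_one, ENNReal.one_rpow, mul_one]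
    rw [Real.enorm_eq_ofReal (by positivity)]
  have h2 : ‖G 0 - G (k + 1)‖ = (eLpNorm (fun x => fn (sg 0) x - fn (sg (k + 1)) x) 2 volume).toReal := by
    rw [Lp.norm_def]
    congr 1
    apply eLpNorm_congr_ae
    filter_upwards [Lp.coeFn_sub (G 0) (G (k + 1)), coe_F (sg 0) (sg_le 0),
      coe_F (sg (k + 1)) (sg_le (k + 1))] with x h3 h4 h5
    rw [h3, Pi.sub_apply]
    unfold G
    rw [h4, h5]
  rw [h2]
  exact ENNReal.toReal_le_of_le_ofReal (by positivity) h1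

lemma boundedSupport_G (m : ℕ) : HasBoundedSupport (G m) := by
  refine ⟨0, 1, ?_⟩
  filter_upwards [coe_F (sg m) (sg_le m)] with x h1 hx
  unfold G
  rw [h1]
  unfold fn
  rw [if_neg]
  intro h
  exact hx ⟨h.1, h.2.le⟩

/-- **Disproof of MP_d886ff_an, Q1.** There is a Pauli set of functions with bounded support which is
not discrete. -/
theorem result : ∃ P : Set (Lp ℂ 2 (volume : Measure ℝ)),
    IsPauliSet P ∧ (∀ f ∈ P, HasBoundedSupport f) ∧ ¬ IsDiscreteSet P := by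
  refine ⟨Set.range G, ⟨?_, ?_⟩, ?_, ?_⟩
  · exact ⟨G 0, ⟨0, rfl⟩, G 1, ⟨1, rfl⟩, fun h => by simpa using G_injective h⟩
  · rintro _ ⟨m, rfl⟩ _ ⟨n, rfl⟩ hne
    exact isPauliPair_G (fun h => hne (by rw [h]))
  · rintro _ ⟨m, rfl⟩
    exact boundedSupport_G m
  · intro hd
    obtain ⟨ε, hε, h⟩ := hd (G 0) ⟨0, rfl⟩
    obtain ⟨k, hk⟩ := exists_pow_lt_of_lt_one (show (0 : ℝ) < ε / 2 by positivity)
      (show (1 / 2 : ℝ) < 1 by norm_num)
    have h1 := h (G (k + 1)) ⟨⟨k + 1, rfl⟩, fun h => by simpa using G_injective h⟩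
    have h2 := norm_sub_le k
    linarith

end Pool.Agent.Results.MP_d886ff_an.NonDiscretePauliSet
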